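import Pool.Agent.Lib.MP_abd978_an.UN.Interfaces

/-!
# Project UNW, module KER: a fundamental vector field
-/

set_option autoImplicit false

open MeasureTheory Metric Set Filter Topology ContDiff
open scoped Gradient RealInnerProductSpace NNReal ENNReal

namespace Pool.Agent.Lib.MP_abd978_an.UN.H37

variable {n : ℕ}

/-! ### The size of the field -/

/-- the constant in the definition of the field -/
noncomputable def kc (n : ℕ) : ℝ := ((n : ℝ) * volume.real (ball (0 : E n) 1))⁻¹

theorem kc_nonneg : 0 ≤ kc n := by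
  unfold kc
  positivity

theorem ker_eq (z x : E n) : ker z x = (-(kc n) * (‖x - z‖ ^ n)⁻¹) • (x - z) := rfl

theorem ker_shift (z x : E n) : ker z x = ker 0 (x - z) := by
  rw [ker_eq, ker_eq, sub_zero]

theorem norm_ker_zero (hn : 2 ≤ n) (x : E n) : ‖ker 0 x‖ = kc n * ‖x‖ ^ (-((n : ℝ) - 1)) := by
  rw [ker_eq, sub_zero, norm_smul, norm_mul, norm_neg, Real.norm_of_nonneg kc_nonneg, norm_inv,
    norm_pow, norm_norm]
  rcases eq_or_ne ‖x‖ 0 with h | h
  · rw [h]
    have h2 : (2 : ℝ) ≤ n := by exact_mod_cast hn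
    rw [Real.zero_rpow (by intro h2; linarith)]
    simp
  · rw [mul_assoc]
    congr 1
    rw [Real.rpow_neg (norm_nonneg x), Real.rpow_sub_one h, Real.rpow_natCast]
    field_simp

theorem measurable_ker (z : E n) : Measurable (ker z) := by
  have h : ker z = fun x => (-(kc n) * (‖x - z‖ ^ n)⁻¹) • (x - z) := rfl
  rw [h]
  fun_prop

theorem nontrivial_E (hn : 2 ≤ n) : Nontrivial (E n) := by
  have : Nonempty (Fin n) := ⟨⟨0, by omega⟩⟩
  infer_instance

theorem integrableOn_rpow (hn : 2 ≤ n) {s : ℝ} (hs : s < n) (r : ℝ) :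
    IntegrableOn (fun x : E n => ‖x‖ ^ (-s)) (ball 0 r) := by
  have := nontrivial_E hn
  refine (integrableOn_fun_norm_addHaar (E := E n) (μ := volume)
    (f := fun y : ℝ => y ^ (-s)) (r := r)).2 ?_
  have hd : Module.finrank ℝ (E n) = n := by simp
  rw [hd]
  have h1 : IntegrableOn (fun y : ℝ => y ^ ((n : ℝ) - 1 - s)) (Ioo 0 r) := by
    rcases le_or_gt r 0 with hr | hr
    · rw [Ioo_eq_empty (by linarith)]
      exact integrableOn_empty
    · have h2 := intervalIntegral.intervalIntegrable_rpow' (a := 0) (b := r)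
        (r := (n : ℝ) - 1 - s) (by linarith)
      exact ((intervalIntegrable_iff_integrableOn_Ioc_of_le hr.le).1 h2).mono_set Ioo_subset_Ioc_self
  refine h1.congr_fun ?_ measurableSet_Ioo
  intro y hy
  show y ^ ((n : ℝ) - 1 - s) = y ^ (n - 1) • y ^ (-s)
  rw [smul_eq_mul, ← Real.rpow_natCast, ← Real.rpow_add hy.1]
  congr 1
  rw [Nat.cast_sub (by omega)]
  push_cast
  ring

theorem dx_pos {p : ℝ} (hp : 1 < p) : 1 < dx p := by
  unfold dx
  rw [lt_div_iff₀ (by linarith)]
  linarith

theorem dx_lt {p : ℝ} (hn : 2 ≤ n) (hp : (n : ℝ) < p) : ((n : ℝ) - 1) * dx p < n := by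
  have h2 : (2 : ℝ) ≤ n := by exact_mod_cast hn
  unfold dx
  rw [← mul_div_assoc, div_lt_iff₀ (by linarith)]
  nlinarith

theorem ofReal_ne {q : ℝ} (hq : 1 < q) : ENNReal.ofReal q ≠ 0 := by
  simp only [ne_eq, ENNReal.ofReal_eq_zero, not_le]
  linarith

theorem memLp_ker_zero {p : ℝ} (hn : 2 ≤ n) (hp : (n : ℝ) < p) (r : ℝ) :
    MemLp (ker (0 : E n)) (ENNReal.ofReal (dx p)) (volume.restrict (ball 0 r)) := by
  have h2 : (2 : ℝ) ≤ n := by exact_mod_cast hn
  have hq := dx_pos (p := p) (by linarith)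
  refine (integrable_norm_rpow_iff (measurable_ker 0).aestronglyMeasurable (ofReal_ne hq)
    ENNReal.ofReal_ne_top).1 ?_
  rw [ENNReal.toReal_ofReal (by linarith)]
  have h1 := (integrableOn_rpow (n := n) hn (dx_lt hn hp) r).const_mul ((kc n) ^ dx p)
  refine h1.congr (Eventually.of_forall fun x => ?_)
  show kc n ^ dx p * ‖x‖ ^ (-(((n : ℝ) - 1) * dx p)) = ‖ker 0 x‖ ^ dx p
  rw [norm_ker_zero hn, Real.mul_rpow kc_nonneg (Real.rpow_nonneg (norm_nonneg _) _),
    ← Real.rpow_mul (norm_nonneg _)]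
  congr 2
  ring

/-- the field cut off outside a ball -/
noncomputable def kt (r : ℝ) : E n → E n := (ball (0 : E n) r).indicator (ker 0)

theorem memLp_kt {p : ℝ} (hn : 2 ≤ n) (hp : (n : ℝ) < p) (r : ℝ) :
    MemLp (kt (n := n) r) (ENNReal.ofReal (dx p)) volume :=
  (memLp_indicator_iff_restrict measurableSet_ball).2 (memLp_ker_zero hn hp r)

theorem ker_eq_kt {r : ℝ} {z x : E n} (h : ‖x - z‖ < r) : ker z x = kt r (x - z) := by
  rw [ker_shift, kt, indicator_of_mem]
  simpa using h

theorem memLp_ker {p : ℝ} (hn : 2 ≤ n) (hp : (n : ℝ) < p) (z c : E n) (r : ℝ) :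
    MemLp (ker z) (ENNReal.ofReal (dx p)) (volume.restrict (ball c r)) := by
  have h1 : MemLp (fun x => kt (n := n) (r + ‖c - z‖) (x - z)) (ENNReal.ofReal (dx p)) volume :=
    (memLp_kt hn hp _).comp_measurePreserving (measurePreserving_sub_right volume z)
  refine (h1.restrict (ball c r)).ae_eq ?_
  refine (ae_restrict_iff' measurableSet_ball).2 (Eventually.of_forall fun x hx => ?_)
  refine (ker_eq_kt ?_).symm
  have h2 : x - z = (x - c) + (c - z) := by abel
  rw [h2]
  have h3 := norm_add_le (x - c) (c - z)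
  have h4 : ‖x - c‖ < r := by simpa [dist_eq_norm] using hx
  linarith

/-! ### Continuity in `z` -/

theorem trans_cont {q : ℝ} (hq : 1 < q) {F : E n → E n} (hF : MemLp F (ENNReal.ofReal q) volume)
    {ε : ℝ} (hε : 0 < ε) : ∃ δ : ℝ, 0 < δ ∧ ∀ h : E n, ‖h‖ < δ →
      eLpNorm (fun x => F (x + h) - F x) (ENNReal.ofReal q) volume ≤ ENNReal.ofReal ε := by
  have hq1 : (1 : ℝ≥0∞) ≤ ENNReal.ofReal q := one_le_ofReal hq
  obtain ⟨g, hg1, hg2, hg3, hg4⟩ := hF.exists_hasCompactSupport_eLpNorm_sub_le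
    ENNReal.ofReal_ne_top (ε := ENNReal.ofReal (ε / 3)) (by simpa using hε)
  obtain ⟨r, hr⟩ := hg1.isCompact.isBounded.subset_ball 0
  set S : Set (E n) := ball 0 (r + 1) with hS
  have hvS : volume S ≠ ⊤ := measure_ball_lt_top.ne
  set m : ℝ := (volume S).toReal ^ (1 / q) with hm
  have hm0 : 0 ≤ m := Real.rpow_nonneg ENNReal.toReal_nonneg _
  have huc : UniformContinuous g := hg1.uniformContinuous_of_continuous hg3
  obtain ⟨δ, hδ, hδ2⟩ := Metric.uniformContinuous_iff.1 huc (ε / 3 / (m + 1)) (by positivity)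
  refine ⟨min δ 1, lt_min hδ one_pos, fun h hh => ?_⟩
  have hmp : MeasurePreserving (fun x : E n => x + h) volume volume :=
    measurePreserving_add_right volume h
  have e1 : eLpNorm (fun x => F (x + h) - g (x + h)) (ENNReal.ofReal q) volume ≤
      ENNReal.ofReal (ε / 3) := by
    have h1 := eLpNorm_comp_measurePreserving (p := ENNReal.ofReal q) (hF.1.sub hg4.1) hmp
    have h2 : (fun x => F (x + h) - g (x + h)) = (F - g) ∘ fun x => x + h := rfl
    rw [h2, h1]
    exact hg2
  have e2 : eLpNorm (fun x => g x - F x) (ENNReal.ofReal q) volume ≤ ENNReal.ofReal (ε / 3) := by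
    have h2 : (fun x => g x - F x) = -(F - g) := by
      funext x
      simp
    rw [h2, eLpNorm_neg]
    exact hg2
  have e3 : eLpNorm (fun x => g (x + h) - g x) (ENNReal.ofReal q) volume ≤
      ENNReal.ofReal (ε / 3) := by
    have h3 : (fun x => g (x + h) - g x) = S.indicator fun x => g (x + h) - g x := by
      funext x
      by_cases hx : x ∈ S
      · rw [indicator_of_mem hx]
      · rw [indicator_of_notMem hx]
        have h5 : r + 1 ≤ ‖x‖ := by simpa [hS] using hx
        have h6 : g x = 0 := by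
          apply image_eq_zero_of_notMem_tsupport
          intro h7
          have h8 : ‖x‖ < r := by simpa using hr h7
          linarith
        have h9 : g (x + h) = 0 := by
          apply image_eq_zero_of_notMem_tsupport
          intro h7
          have h8 : ‖x + h‖ < r := by simpa using hr h7
          have h10 : ‖x‖ ≤ ‖x + h‖ + ‖h‖ := by
            have := norm_sub_le (x + h) h
            simpa using this
          have h11 := hh.trans_le (min_le_right _ _)
          linarith
        rw [h6, h9, sub_zero]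
    rw [h3, eLpNorm_indicator_eq_eLpNorm_restrict measurableSet_ball]
    refine (eLpNorm_le_of_ae_bound (C := ε / 3 / (m + 1)) (Eventually.of_forall fun x => ?_)).trans ?_
    · have h4 := hδ2 (a := x + h) (b := x) (by
        rw [dist_eq_norm]
        simpa using hh.trans_le (min_le_left _ _))
      rw [dist_eq_norm] at h4
      exact h4.le
    · rw [Measure.restrict_apply_univ, ENNReal.toReal_ofReal (by linarith)]
      have h5 : volume S ^ q⁻¹ = ENNReal.ofReal m := by
        rw [hm, ← ENNReal.ofReal_rpow_of_nonneg ENNReal.toReal_nonneg (by positivity),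
          ENNReal.ofReal_toReal hvS, one_div]
      rw [h5, ← ENNReal.ofReal_mul hm0]
      apply ENNReal.ofReal_le_ofReal
      rw [mul_div_assoc']
      rw [div_le_iff₀ (by positivity)]
      nlinarith
  have hsum : (fun x => F (x + h) - F x) = (fun x => F (x + h) - g (x + h)) +
      ((fun x => g (x + h) - g x) + fun x => g x - F x) := by
    funext x
    simp
  have m1 : AEStronglyMeasurable (fun x => F (x + h) - g (x + h)) volume :=
    (hF.1.sub hg4.1).comp_measurePreserving hmp
  have m2 : AEStronglyMeasurable (fun x => g (x + h) - g x) volume :=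
    ((hg3.comp (continuous_id.add continuous_const)).sub hg3).aestronglyMeasurable
  have m3 : AEStronglyMeasurable (fun x => g x - F x) volume := hg4.1.sub hF.1
  rw [hsum]
  refine (eLpNorm_add_le m1 (m2.add m3) hq1).trans ?_
  refine (add_le_add le_rfl (eLpNorm_add_le m2 m3 hq1)).trans ?_
  refine (add_le_add e1 (add_le_add e3 e2)).trans (le_of_eq ?_)
  rw [← ENNReal.ofReal_add (by positivity) (by positivity), ← ENNReal.ofReal_add (by positivity)
    (by positivity)]
  congr 1
  ring

/-! ### The formula for test functions -/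

theorem inner_grad_eq_deriv {φ : E n → ℝ} (hφ : Differentiable ℝ φ) (y : E n) (r : ℝ) :
    HasDerivAt (fun t : ℝ => φ (t • y)) ⟪y, ∇ φ (r • y)⟫ r := by
  have h1 : HasFDerivAt φ (fderiv ℝ φ (r • y)) (r • y) := (hφ _).hasFDerivAt
  have h2 : HasDerivAt (fun t : ℝ => t • y) ((1 : ℝ) • y) r := (hasDerivAt_id r).smul_const y
  have h3 := h1.comp_hasDerivAt r h2
  have h4 : fderiv ℝ φ (r • y) ((1 : ℝ) • y) = ⟪y, ∇ φ (r • y)⟫ := by
    rw [one_smul, real_inner_comm, grad_eq]
    simp
  rw [← h4]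
  exact h3

/-- the integral along a ray -/
theorem ray {φ : E n → ℝ} (hφ : Test univ φ) (y : sphere (0 : E n) 1) :
    ∫ r in Ioi (0 : ℝ), ⟪(y : E n), ∇ φ (r • (y : E n))⟫ = -φ 0 := by
  have hd : Differentiable ℝ φ := hφ.1.differentiable (by simp)
  have hy : ‖(y : E n)‖ = 1 := by simp
  have hcl : Topology.IsClosedEmbedding fun r : ℝ => r • (y : E n) := by
    apply isClosedEmbedding_smul_left
    intro h0
    rw [h0] at hy
    simp at hy
  have h1 := integral_Ioi_of_hasDerivAt_of_tendsto (a := 0) (f := fun t : ℝ => φ (t • (y : E n)))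
    (f' := fun r => ⟪(y : E n), ∇ φ (r • (y : E n))⟫) (m := 0)
    (hd.continuous.comp (continuous_id.smul continuous_const)).continuousWithinAt
    (fun r _ => inner_grad_eq_deriv hd _ r) ?_ ?_
  · rw [h1]
    simp
  · have hc : HasCompactSupport fun r : ℝ => ∇ φ (r • (y : E n)) :=
      (hasCompactSupport_grad hφ).comp_isClosedEmbedding hcl
    have hcont : Continuous fun r : ℝ => ∇ φ (r • (y : E n)) :=
      (continuous_grad hφ.1).comp (continuous_id.smul continuous_const)
    have h2 : HasCompactSupport fun r : ℝ => ⟪(y : E n), ∇ φ (r • (y : E n))⟫ := by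
      refine hc.mono' ?_
      intro r hr
      apply subset_tsupport
      intro h0
      apply hr
      have h0' : ∇ φ (r • (y : E n)) = 0 := h0
      show ⟪(y : E n), ∇ φ (r • (y : E n))⟫ = 0
      rw [h0', inner_zero_right]
    exact ((continuous_const.inner hcont).integrable_of_hasCompactSupport h2).integrableOn
  · have hc : HasCompactSupport fun r : ℝ => φ (r • (y : E n)) :=
      hφ.2.1.comp_isClosedEmbedding hcl
    exact hc.is_zero_at_infty.mono_left atTop_le_cocompact

theorem integrable_ker {φ : E n → ℝ} (hn : 2 ≤ n) (hφ : Test univ φ) :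
    Integrable (fun x => ⟪ker 0 x, ∇ φ x⟫) volume := by
  have h2 : (2 : ℝ) ≤ n := by exact_mod_cast hn
  obtain ⟨r, hr⟩ := (hasCompactSupport_grad hφ).isCompact.isBounded.subset_ball 0
  obtain ⟨C, hC0, -, hC⟩ := hφ.exists_bound
  have h1 : IntegrableOn (fun x => ⟪ker 0 x, ∇ φ x⟫) (ball 0 r) volume := by
    have h3 := memLp_ker_zero (n := n) (p := n + 1) hn (by linarith) r
    have hfin : IsFiniteMeasure ((volume : Measure (E n)).restrict (ball 0 r)) :=
      ⟨by simpa using measure_ball_lt_top⟩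
    have h4 : Integrable (ker (0 : E n)) (volume.restrict (ball 0 r)) :=
      h3.integrable (one_le_ofReal (dx_pos (by linarith)))
    refine (h4.norm.mul_const C).mono' ?_ (Eventually.of_forall fun x => ?_)
    · exact ((measurable_ker 0).aestronglyMeasurable.inner
        (continuous_grad hφ.1).aestronglyMeasurable)
    · exact (norm_inner_le_norm _ _).trans (mul_le_mul_of_nonneg_left (hC x) (norm_nonneg _))
  refine (integrableOn_iff_integrable_of_support_subset ?_).1 h1
  intro x hx
  apply hr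
  apply subset_tsupport
  intro h0
  apply hx
  have h0' : ∇ φ x = 0 := h0
  show ⟪ker 0 x, ∇ φ x⟫ = 0
  rw [h0', inner_zero_right]

/-- polar coordinates -/
theorem polar (hn : 2 ≤ n) (F : E n → ℝ) (hF : Integrable F volume) :
    ∫ x, F x = ∫ y : sphere (0 : E n) 1, (∫ r in Ioi (0 : ℝ), r ^ (n - 1) * F (r • (y : E n)))
      ∂(volume : Measure (E n)).toSphere := by
  have := nontrivial_E hn
  have hd : Module.finrank ℝ (E n) = n := by simp
  have hmp := (volume : Measure (E n)).measurePreserving_homeomorphUnitSphereProd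
  rw [hd] at hmp
  have hcomp : (fun x : ({(0 : E n)}ᶜ : Set (E n)) => F x) =
      (fun q : sphere (0 : E n) 1 × Ioi (0 : ℝ) => F ((q.2 : ℝ) • (q.1 : E n))) ∘
        homeomorphUnitSphereProd (E n) := by
    funext x
    have hx : ‖(x : E n)‖ ≠ 0 := norm_ne_zero_iff.2 x.2
    simp only [Function.comp_apply, homeomorphUnitSphereProd_apply_snd_coe,
      homeomorphUnitSphereProd_apply_fst_coe]
    rw [smul_smul, mul_inv_cancel₀ hx, one_smul]
  have hint : Integrable (fun q : sphere (0 : E n) 1 × Ioi (0 : ℝ) => F ((q.2 : ℝ) • (q.1 : E n)))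
      ((volume : Measure (E n)).toSphere.prod (Measure.volumeIoiPow (n - 1))) := by
    rw [← hmp.integrable_comp_emb (Homeomorph.measurableEmbedding _), ← hcomp]
    have h1 : IntegrableOn F ({(0 : E n)}ᶜ) volume := hF.integrableOn
    rw [integrableOn_iff_comap_subtypeVal (measurableSet_singleton _).compl] at h1
    exact h1
  calc ∫ x, F x = ∫ x : ({(0)}ᶜ : Set (E n)), F x ∂(volume.comap Subtype.val) := by
        rw [integral_subtype_comap (measurableSet_singleton _).compl F,
          restrict_compl_singleton]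
    _ = ∫ q : sphere (0 : E n) 1 × Ioi (0 : ℝ), F ((q.2 : ℝ) • (q.1 : E n))
        ∂((volume : Measure (E n)).toSphere.prod (Measure.volumeIoiPow (n - 1))) := by
      rw [hcomp, ← hmp.integral_comp (Homeomorph.measurableEmbedding _)]
      rfl
    _ = ∫ y : sphere (0 : E n) 1, (∫ r : Ioi (0 : ℝ), F ((r : ℝ) • (y : E n))
        ∂(Measure.volumeIoiPow (n - 1))) ∂(volume : Measure (E n)).toSphere :=
      integral_prod _ hint
    _ = _ := by
      refine integral_congr_ae (Eventually.of_forall fun y => ?_)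
      show ∫ r : Ioi (0 : ℝ), F ((r : ℝ) • (y : E n)) ∂(Measure.volumeIoiPow (n - 1)) =
        ∫ r in Ioi (0 : ℝ), r ^ (n - 1) * F (r • (y : E n))
      simp only [Measure.volumeIoiPow, ENNReal.ofReal]
      rw [integral_withDensity_eq_integral_smul,
        integral_subtype_comap measurableSet_Ioi
          fun a : ℝ => Real.toNNReal (a ^ (n - 1)) • F (a • (y : E n))]
      · refine setIntegral_congr_fun measurableSet_Ioi fun x hx => ?_
        show Real.toNNReal (x ^ (n - 1)) • F (x • (y : E n)) = x ^ (n - 1) * F (x • (y : E n))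
        rw [NNReal.smul_def, Real.coe_toNNReal _ (pow_nonneg (le_of_lt hx) _), smul_eq_mul]
      · exact (measurable_subtype_coe.pow_const _).real_toNNReal

theorem part3_zero {φ : E n → ℝ} (hn : 2 ≤ n) (hφ : Test univ φ) :
    ∫ x, ⟪ker 0 x, ∇ φ x⟫ = φ 0 := by
  have hd : Module.finrank ℝ (E n) = n := by simp
  rw [polar hn _ (integrable_ker hn hφ)]
  have h1 : ∀ y : sphere (0 : E n) 1, ∫ r in Ioi (0 : ℝ), r ^ (n - 1) *
      ⟪ker 0 (r • (y : E n)), ∇ φ (r • (y : E n))⟫ = kc n * φ 0 := by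
    intro y
    have hy : ‖(y : E n)‖ = 1 := by simp
    have h2 : ∫ r in Ioi (0 : ℝ), r ^ (n - 1) * ⟪ker 0 (r • (y : E n)), ∇ φ (r • (y : E n))⟫ =
        ∫ r in Ioi (0 : ℝ), -(kc n) * ⟪(y : E n), ∇ φ (r • (y : E n))⟫ := by
      refine setIntegral_congr_fun measurableSet_Ioi fun r hr => ?_
      have hr0 : (0 : ℝ) < r := hr
      show r ^ (n - 1) * ⟪ker 0 (r • (y : E n)), ∇ φ (r • (y : E n))⟫ =
        -(kc n) * ⟪(y : E n), ∇ φ (r • (y : E n))⟫
      rw [ker_eq, sub_zero, norm_smul, hy, mul_one, Real.norm_of_nonneg hr0.le, smul_smul,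
        real_inner_smul_left]
      have h3 : r ^ n = r ^ (n - 1) * r := by
        rw [← pow_succ]
        congr 1
        omega
      rw [h3]
      have h4 : r ^ (n - 1) ≠ 0 := (pow_pos hr0 _).ne'
      field_simp
    rw [h2, integral_const_mul, ray hφ y]
    ring
  simp_rw [h1]
  rw [integral_const, Measure.toSphere_real_apply_univ, hd, smul_eq_mul, kc]
  have h5 : 0 < volume.real (ball (0 : E n) 1) := by
    rw [measureReal_def]
    exact ENNReal.toReal_pos (measure_ball_pos _ _ one_pos).ne' measure_ball_lt_top.ne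
  have h6 : (0 : ℝ) < n := by
    have : 0 < n := by omega
    exact_mod_cast this
  field_simp

theorem part3 (hn : 2 ≤ n) (z : E n) {ψ : E n → ℝ} (hψ : Test univ ψ) :
    ∫ x, ⟪ker z x, ∇ ψ x⟫ = ψ z := by
  have hT : Test univ fun x => ψ (x + z) := by
    refine ⟨hψ.1.comp (contDiff_id.add contDiff_const), ?_, subset_univ _⟩
    exact hψ.2.1.comp_homeomorph (Homeomorph.addRight z)
  have h1 := part3_zero hn hT
  rw [zero_add] at h1
  rw [← h1, ← integral_add_right_eq_self (fun x => ⟪ker z x, ∇ ψ x⟫) z]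
  refine integral_congr_ae (Eventually.of_forall fun x => ?_)
  show ⟪ker z (x + z), ∇ ψ (x + z)⟫ = ⟪ker 0 x, ∇ (fun x => ψ (x + z)) x⟫
  rw [ker_shift z, add_sub_cancel_right]
  congr 1
  rw [grad_eq, grad_eq, fderiv_comp_add_right]

/-! ### Continuity in `z`, the formula for `H_0` -/

theorem part2 {p : ℝ} (hn : 2 ≤ n) (hp : (n : ℝ) < p) (R : ℝ) {ε : ℝ} (hε : 0 < ε) :
    ∃ δ : ℝ, 0 < δ ∧ ∀ z z' : E n, ‖z‖ ≤ R → ‖z'‖ ≤ R → dist z z' < δ →
      eLpNorm (fun x => ker z x - ker z' x) (ENNReal.ofReal (dx p))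
        (volume.restrict (ball 0 R)) ≤ ENNReal.ofReal ε := by
  have h2 : (2 : ℝ) ≤ n := by exact_mod_cast hn
  have hq := dx_pos (p := p) (by linarith)
  obtain ⟨δ, hδ, h⟩ := trans_cont hq (memLp_kt (n := n) hn hp (2 * R)) hε
  refine ⟨δ, hδ, fun z z' hz hz' hd => ?_⟩
  have hmp : MeasurePreserving (fun x : E n => x - z') volume volume :=
    measurePreserving_sub_right volume z'
  have h3 := h (z' - z) (by rwa [← dist_eq_norm, dist_comm])
  have hm : AEStronglyMeasurable (fun x => kt (n := n) (2 * R) (x + (z' - z)) -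
      kt (2 * R) x) volume :=
    ((memLp_kt hn hp (2 * R)).1.comp_measurePreserving
      (measurePreserving_add_right volume (z' - z))).sub (memLp_kt hn hp (2 * R)).1
  rw [← eLpNorm_comp_measurePreserving (p := ENNReal.ofReal (dx p)) hm hmp] at h3
  refine le_trans (le_trans (le_of_eq ?_) (eLpNorm_mono_measure _
    (Measure.restrict_le_self (s := ball (0 : E n) R)))) h3
  refine eLpNorm_congr_ae ?_
  refine (ae_restrict_iff' measurableSet_ball).2 (Eventually.of_forall fun x hx => ?_)
  have hx' : ‖x‖ < R := by simpa using hx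
  show ker z x - ker z' x = kt (2 * R) (x - z' + (z' - z)) - kt (2 * R) (x - z')
  have e1 : x - z' + (z' - z) = x - z := by abel
  rw [e1, ← ker_eq_kt, ← ker_eq_kt]
  · have := norm_sub_le x z'
    linarith
  · have := norm_sub_le x z
    linarith

theorem neg_test {D : Set (E n)} {φ : E n → ℝ} (h : Test D φ) : Test D fun x => -φ x := by
  refine ⟨h.1.neg, ?_, ?_⟩
  · exact h.2.1.neg
  · have h1 : tsupport (fun x => -φ x) = tsupport φ := tsupport_neg φ
    rw [h1]
    exact h.2.2

theorem sub_h0 {p : ℝ} {D : Set (E n)} {u φ : E n → ℝ} {v : E n → E n} (hp : 1 < p)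
    (h : H0 volume p D u v) (hφ : Test D φ) :
    H0 volume p D (fun x => u x - φ x) fun x => v x - ∇ φ x := by
  have h1 := h.add hp (neg_test hφ).h0
  have e1 : (fun x => u x + -φ x) = fun x => u x - φ x := by
    funext x
    ring
  have e2 : (fun x => v x + ∇ (fun y => -φ y) x) = fun x => v x - ∇ φ x := by
    funext x
    have : ∇ (fun y => -φ y) x = -∇ φ x := by
      rw [grad_eq, grad_eq, fderiv_fun_neg, map_neg]
    rw [this]
    abel
  rw [e1, e2] at h1
  exact h1

theorem holder_ker {p : ℝ} (hn : 2 ≤ n) (hp : (n : ℝ) < p) (z : E n) (R : ℝ) {G : E n → E n}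
    (hG : MemLp G (ENNReal.ofReal p) volume) :
    IntegrableOn (fun x => ⟪ker z x, G x⟫) (ball 0 R) volume ∧
    |∫ x in ball (0 : E n) R, ⟪ker z x, G x⟫| ≤
      (∫ x in ball (0 : E n) R, ‖ker z x‖ ^ dx p) ^ (1 / dx p) * (∫ x, ‖G x‖ ^ p) ^ (1 / p) := by
  have h2 : (2 : ℝ) ≤ n := by exact_mod_cast hn
  have hp1 : 1 < p := by linarith
  have hpq : (dx p).HolderConjugate p := (Real.HolderConjugate.conjExponent hp1).symm
  have hk := memLp_ker hn hp z 0 R
  have hGr := hG.restrict (ball (0 : E n) R)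
  have hmeas : AEStronglyMeasurable (fun x => ⟪ker z x, G x⟫) (volume.restrict (ball 0 R)) :=
    hk.1.inner hGr.1
  have hH : ENNReal.HolderConjugate (ENNReal.ofReal (dx p)) (ENNReal.ofReal p) :=
    hpq.ennrealOfReal
  have hint : Integrable (fun x => ‖ker z x‖ * ‖G x‖) (volume.restrict (ball 0 R)) :=
    MemLp.integrable_mul hk.norm hGr.norm
  refine ⟨hint.mono' hmeas (Eventually.of_forall fun x => norm_inner_le_norm _ _), ?_⟩
  refine (abs_integral_le_integral_abs).trans ?_
  refine (integral_mono_of_nonneg (Eventually.of_forall fun x => abs_nonneg _) hint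
    (Eventually.of_forall fun x => abs_real_inner_le_norm _ _)).trans ?_
  refine (integral_mul_norm_le_Lp_mul_Lq hpq hk hGr).trans ?_
  refine mul_le_mul_of_nonneg_left ?_ (by positivity)
  refine Real.rpow_le_rpow (by positivity) ?_ (by positivity)
  refine setIntegral_le_integral ?_ (Eventually.of_forall fun x => by positivity)
  have h3 := hG.integrable_norm_rpow (ofReal_ne hp1) ENNReal.ofReal_ne_top
  rwa [ENNReal.toReal_ofReal (by linarith)] at h3

theorem int_ball (z : E n) {R : ℝ} {G : E n → E n}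
    (hG : ∀ᵐ x ∂(volume.restrict (ball (0 : E n) R)ᶜ), G x = 0) :
    ∫ x, ⟪ker z x, G x⟫ = ∫ x in ball (0 : E n) R, ⟪ker z x, G x⟫ := by
  refine (setIntegral_eq_integral_of_ae_compl_eq_zero ?_).symm
  rw [ae_restrict_iff' measurableSet_ball.compl] at hG
  filter_upwards [hG] with x hx h2
  rw [hx h2, inner_zero_right]

theorem part4 (h0c : H0cStatement) {p R : ℝ} (hn : 2 ≤ n) (hp : (n : ℝ) < p) (hR : 0 < R)
    (z : E n) {ψ : E n → ℝ} {V : E n → E n} (h : H0 volume p (ball 0 R) ψ V)
    (hc : Continuous ψ) : ∫ x, ⟪ker z x, V x⟫ = ψ z := by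
  have h2 : (2 : ℝ) ≤ n := by exact_mod_cast hn
  have hp1 : 1 < p := by linarith
  obtain ⟨C, hC, h0c'⟩ := h0c n p (by omega) hp
  have hball : MeasurableSet (ball (0 : E n) R) := measurableSet_ball
  -- the basic bound
  have key : ∀ φ : E n → ℝ, Test (ball 0 R) φ →
      |(∫ x, ⟪ker z x, V x⟫) - ψ z| ≤
        ((∫ x in ball (0 : E n) R, ‖ker z x‖ ^ dx p) ^ (1 / dx p) + C * R ^ (1 - n / p)) *
          (∫ x, ‖V x - ∇ φ x‖ ^ p) ^ (1 / p) := by
    intro φ hφ
    have hs := sub_h0 hp1 h hφ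
    have hV0 := (hs.ae_eq_zero hp1 hball).2
    obtain ⟨hi, hb⟩ := holder_ker hn hp z R hs.2.1
    obtain ⟨u', hu1, hu2, -, hu4⟩ := h0c' (ball 0 R) 0 R _ _ hR isOpen_ball subset_rfl hs
    have hu5 : u' = fun x => ψ x - φ x :=
      (hu1.ae_eq_iff_eq volume (hc.sub hφ.1.continuous)).1 hu2
    have hu6 := hu4 z
    rw [hu5] at hu6
    have e1 : ∫ x, ⟪ker z x, V x⟫ = ∫ x in ball (0 : E n) R, ⟪ker z x, V x⟫ :=
      int_ball z (h.ae_eq_zero hp1 hball).2
    have e2 : ∫ x, ⟪ker z x, ∇ φ x⟫ = ∫ x in ball (0 : E n) R, ⟪ker z x, ∇ φ x⟫ :=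
      int_ball z (H0.ae_eq_zero hp1 hball hφ.h0).2
    rw [part3 hn z (hφ.mono (subset_univ _))] at e2
    have e3 : ∫ x in ball (0 : E n) R, ⟪ker z x, V x - ∇ φ x⟫ =
        (∫ x in ball (0 : E n) R, ⟪ker z x, V x⟫) -
          ∫ x in ball (0 : E n) R, ⟪ker z x, ∇ φ x⟫ := by
      rw [← integral_sub (holder_ker hn hp z R h.2.1).1
        (holder_ker hn hp z R (hφ.memLp_grad _)).1]
      refine integral_congr_ae (Eventually.of_forall fun x => ?_)
      show ⟪ker z x, V x - ∇ φ x⟫ = ⟪ker z x, V x⟫ - ⟪ker z x, ∇ φ x⟫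
      rw [inner_sub_right]
    rw [← e2] at e3
    have e4 : (∫ x, ⟪ker z x, V x⟫) - ψ z = (∫ x in ball (0 : E n) R, ⟪ker z x, V x - ∇ φ x⟫) -
        (ψ z - φ z) := by
      rw [e3, e1]
      ring
    rw [e4, add_mul]
    refine (abs_sub _ _).trans ?_
    exact add_le_add hb hu6
  obtain ⟨h1, h3, φ, h4, h5, h6⟩ := h
  have hlim : Tendsto (fun i => (∫ x, ‖V x - ∇ (φ i) x‖ ^ p) ^ (1 / p)) atTop (𝓝 0) := by
    have h7 : Tendsto (fun i => (eLpNorm (fun x => ∇ (φ i) x - V x) (ENNReal.ofReal p)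
        volume).toReal) atTop (𝓝 0) := by
      have h7 := (ENNReal.tendsto_toReal ENNReal.zero_ne_top).comp h6
      rw [ENNReal.toReal_zero] at h7
      exact h7
    refine h7.congr fun i => ?_
    have h8 : MemLp (fun x => ∇ (φ i) x - V x) (ENNReal.ofReal p) volume :=
      ((h4 i).memLp_grad _).sub h3
    rw [h8.eLpNorm_eq_integral_rpow_norm (ofReal_ne hp1) ENNReal.ofReal_ne_top,
      ENNReal.toReal_ofReal (by positivity), ENNReal.toReal_ofReal (by linarith), one_div]
    congr 2
    funext x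
    rw [norm_sub_rev]
  have hlim2 := hlim.const_mul
    ((∫ x in ball (0 : E n) R, ‖ker z x‖ ^ dx p) ^ (1 / dx p) + C * R ^ (1 - n / p))
  rw [mul_zero] at hlim2
  have h9 : |(∫ x, ⟪ker z x, V x⟫) - ψ z| ≤ 0 := ge_of_tendsto' hlim2 fun i => key _ (h4 i)
  have h10 := abs_nonpos_iff.1 h9
  linarith

/-- KER -/
theorem kerS (h0c : H0cStatement) : KerStatement := by
  intro n p R hn hp hR
  exact ⟨fun z => memLp_ker hn hp z 0 R, fun ε hε => part2 hn hp R hε,
    fun z ψ hψ => part3 hn z hψ, fun z ψ V h hc => part4 h0c hn hp hR z h hc⟩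

end Pool.Agent.Lib.MP_abd978_an.UN.H37
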